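import Pool.Agent.TH930.LT.Avg2

set_option autoImplicit false

/-! The average number of steps of the map on the odd integers until the passage below `x^θ`. -/

namespace Pool.Agent.Results.MP_2b866c_nt.AverageAbovePower

open Filter Topology

/-- `C(m) = (3m+1)/2^e(m)`, `2^e(m)` the largest power of `2` dividing `3m+1` -/
def C (m : ℕ) : ℕ := (3 * m + 1) / 2 ^ padicValNat 2 (3 * m + 1)

/-- `min (h, L)`, where `h` is the least `k ≥ 0` with `C^k(m) ≤ y`, and `h = ∞` if there is none -/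
noncomputable def truncHeight (y : ℝ) (m L : ℕ) : ℕ := sInf {k : ℕ | ((C^[k] m : ℕ) : ℝ) ≤ y ∨ L ≤ k}

/-- the binary entropy function, in bits -/
noncomputable def H (p : ℝ) : ℝ := Real.binEntropy p / Real.log 2

/-- There is `c > 1 - H(log_3 2)` (`= 0.0500...`) such that for all `0 < θ < 1`, `κ > 0` and all natural
numbers `r` with `κ r < c θ`: the average over the odd `m ≤ x` of the `r`-th power of `min (h, x^κ)`, `h`
the number of steps from `m` to the first value `≤ x^θ`, is asymptotic to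
`((1-θ) (2 / log (16/9)) log x)^r`. -/
theorem result : ∃ c : ℝ, 1 - H (Real.log 2 / Real.log 3) < c ∧
    ∀ (θ κ : ℝ) (r : ℕ), 0 < θ → θ < 1 → 0 < κ → κ * r < c * θ →
      Tendsto (fun x : ℝ => (2 / x * ∑ m ∈ (Finset.Icc 1 ⌊x⌋₊).filter (fun m => m % 2 = 1),
        (truncHeight (x ^ θ) m ⌊x ^ κ⌋₊ : ℝ) ^ r) / Real.log x ^ r) atTop
        (𝓝 (((1 - θ) * (2 / Real.log (16 / 9))) ^ r)) := by
  have hl2 : 0 < Real.log 2 := Real.log_pos (by norm_num)
  have hl3 : 0 < Real.log 3 := Real.log_pos (by norm_num)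
  have e43 : Real.log (4 / 3) = 2 * Real.log 2 - Real.log 3 := by
    rw [Real.log_div (by norm_num) (by norm_num), show (4 : ℝ) = 2 ^ 2 by norm_num, Real.log_pow]
    push_cast; ring
  have h43 : 0 < Real.log (4 / 3) := Real.log_pos (by norm_num)
  have e169 : Real.log (16 / 9) = 2 * Real.log (4 / 3) := by
    rw [show (16 : ℝ) / 9 = (4 / 3) ^ 2 by norm_num, Real.log_pow]; push_cast; ring
  have hk := Pool.Agent.TH930.LT.kappa_lt
  have h0 : 1 / 2 < Real.log 2 / Real.log 3 := by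
    rw [lt_div_iff₀ hl3]
    linarith
  obtain ⟨τ, p, c, hτ0, hτ1, hp1, hp2, hc1, hc2, hc3⟩ := Pool.Agent.TH930.LT.exists_param h0 hk.le
  have ha : 0 < Real.log 2 - p * Real.log 3 := by
    rw [lt_div_iff₀ hl3] at hp2
    linarith
  have hr0 := Pool.Agent.TH930.LT.rate_pos h0
  obtain ⟨K, hK, h⟩ := Pool.Agent.TH930.LT.time_law hτ0 hτ1 hp1 (by linarith)
    (B := 2 / (Real.log 2 - p * Real.log 3))
    (by positivity) (by rw [div_mul_cancel₀ _ ha.ne']; norm_num) (c := c) (by linarith) (by linarith) hc3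
  refine ⟨c, hc1, ?_⟩
  intro θ κ r hθ0 hθ1 hκ hκr
  have h1 := Pool.Agent.TH930.LT.avg (c := c) (C := K) (B := 2 / (Real.log 2 - p * Real.log 3))
    (by positivity) hK.le h hθ0 hθ1 hκ hκr
  have e : (1 - θ) / Real.log (4 / 3) = (1 - θ) * (2 / Real.log (16 / 9)) := by
    rw [e169]; field_simp
  rw [e] at h1
  exact h1

end Pool.Agent.Results.MP_2b866c_nt.AverageAbovePower
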