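import Mathlib
import Pool.Agent.TH237.AV.Bridge

set_option autoImplicit false

/-!
The lower half of the asymptotic formula for the average height, with a bounded error.

Author: helper237.
-/

namespace Pool.Agent.Results.MP_2b866c_nt.AverageLowerBound

open Finset

/-- `C(m) = (3m+1)/2^e(m)`, `2^e(m)` the largest power of `2` dividing `3m+1` -/
def C (m : ℕ) : ℕ := (3 * m + 1) / 2 ^ padicValNat 2 (3 * m + 1)

/-- the height `h(m)`, the least `k ≥ 1` with `C^k(m) = 1`, and `⊤ = ∞` if there is none -/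
noncomputable def height (m : ℕ) : ℕ∞ := sInf {k : ℕ∞ | ∃ j : ℕ, 1 ≤ j ∧ C^[j] m = 1 ∧ k = j}

/-- `min (h(m), L)`, a natural number -/
noncomputable def truncHeight (m L : ℕ) : ℕ := (min (height m) (L : ℕ∞)).toNat

/-- the odd integers `1 ≤ m ≤ x` -/
noncomputable def odds (x : ℝ) : Finset ℕ := (Icc 1 ⌊x⌋₊).filter fun m => m % 2 = 1

/-- `H(x) = (2/x) ∑ h(m)`, the sum over the odd `m ≤ x`; a number in `[0, ∞]` -/
noncomputable def H (x : ℝ) : ENNReal := ENNReal.ofReal (2 / x) * ∑ m ∈ odds x, ((height m : ℕ∞) : ENNReal)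

theorem trunc_eq : truncHeight = Pool.Agent.TH237.AV.Br.truncHeight := rfl

theorem odds_eq : odds = Pool.Agent.TH237.AV.Br.odds := rfl

/-- Write `c = 2 / log (16/9)`. For every `Λ > c` there is `B` such that for all `x ≥ 1` and all
integers `L ≥ Λ log x` the average of `min (h(m), L)` over the odd `m ≤ x` is at least `c log x - B`;
and there is `B` such that `H(x) ≥ c log x - B` for all `x ≥ 1`. -/
theorem result :
    (∀ Λ : ℝ, 2 / Real.log (16 / 9) < Λ → ∃ B : ℝ, ∀ (x : ℝ) (L : ℕ), 1 ≤ x → Λ * Real.log x ≤ L →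
      2 / Real.log (16 / 9) * Real.log x - B ≤ 2 / x * ∑ m ∈ odds x, (truncHeight m L : ℝ)) ∧
    (∃ B : ℝ, ∀ x : ℝ, 1 ≤ x → ENNReal.ofReal (2 / Real.log (16 / 9) * Real.log x - B) ≤ H x) := by
  have h3 : ∀ Λ : ℝ, 2 / Real.log (16 / 9) < Λ → ∃ B : ℝ, ∀ (x : ℝ) (L : ℕ), 1 ≤ x → Λ * Real.log x ≤ L →
      2 / Real.log (16 / 9) * Real.log x - B ≤ 2 / x * ∑ m ∈ odds x, (truncHeight m L : ℝ) := by
    intro Λ hΛ
    obtain ⟨B, _, h⟩ := Pool.Agent.TH237.AV.Br.lower hΛ
    refine ⟨B, fun x L hx hL => ?_⟩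
    have h1 := h x 1 L le_rfl hx hL
    rw [Real.log_one, sub_zero] at h1
    refine h1.trans ?_
    rw [odds_eq, trunc_eq]
    apply mul_le_mul_of_nonneg_left _ (by positivity)
    apply sum_le_sum
    intro m _
    exact_mod_cast Pool.Agent.TH237.AV.Br.passage_le_height m L
  refine ⟨h3, ?_⟩
  obtain ⟨B, h⟩ := h3 (2 / Real.log (16 / 9) + 1) (by linarith)
  refine ⟨B, fun x hx => ?_⟩
  have hx0 : 0 < x := by linarith
  set L := ⌈(2 / Real.log (16 / 9) + 1) * Real.log x⌉₊ with hL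
  have h1 := h x L hx (Nat.le_ceil _)
  refine (ENNReal.ofReal_le_ofReal h1).trans ?_
  rw [ENNReal.ofReal_mul (by positivity)]
  unfold H
  gcongr
  rw [← Nat.cast_sum, ENNReal.ofReal_natCast, Nat.cast_sum]
  exact sum_le_sum fun m _ => Pool.Agent.TH237.AV.Br.truncHeight_le m L

end Pool.Agent.Results.MP_2b866c_nt.AverageLowerBound
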