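import Pool.Agent.TH465.HP.Main2

set_option autoImplicit false

/-!
Heights of odd integers under the `3x+1` map along sums with primes.

The heights obey the same limit law, and have the same truncated averages, at the odd integers
`n - p - p'` (`p`, `p'` prime, for every large odd `n`), `p - k` (`p` prime, for almost all even `k`)
and `n - p` (`p` prime, for almost all even `n`) as at all odd integers.
-/

namespace Pool.Agent.Results.MP_2b866c_nt.HeightsWithPrimes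

open Filter Topology

/-- `C(m) = (3m+1)/2^e(m)`, `2^e(m)` the largest power of `2` dividing `3m+1` -/
def C (m : ℕ) : ℕ := (3 * m + 1) / 2 ^ padicValNat 2 (3 * m + 1)

/-- the height `h(m)`, the least `k ≥ 1` with `C^k(m) = 1`, and `⊤ = ∞` if there is none -/
noncomputable def height (m : ℕ) : ℕ∞ := sInf {k : ℕ∞ | ∃ j : ℕ, 1 ≤ j ∧ C^[j] m = 1 ∧ k = j}

/-- the height truncated at `t`, that is `min (h(m), t)` -/
noncomputable def truncated (t : ℝ) (m : ℕ) : ℝ := if height m = ⊤ then t else min ((height m).toNat : ℝ) t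

/-- among the odd positive integers, those with the property `P` have the natural density `δ` -/
def HasOddDensity (P : ℕ → Prop) (δ : ℝ) : Prop :=
  Tendsto (fun N : ℕ => 2 / (N : ℝ) * ({m : ℕ | m ≤ N ∧ Odd m ∧ P m}.ncard : ℝ)) atTop (𝓝 δ)

/-- `2 / log (16/9) * log m + x * log 2 * √(2 log m / (log (4/3))^3)` -/
noncomputable def bound (x : ℝ) (m : ℕ) : ℝ :=
  2 / Real.log (16 / 9) * Real.log m
    + x * (Real.log 2 * Real.sqrt (2 * Real.log m / Real.log (4 / 3) ^ 3))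

/-- The distribution function of the standard normal law. -/
noncomputable def Phi (x : ℝ) : ℝ :=
  ProbabilityTheory.cdf (ProbabilityTheory.gaussianReal 0 1) x

/-- `m` has a finite height, which is at most `bound x m` and congruent to `b` modulo `q`. -/
def Level (q : ℕ) (b : ℤ) (x : ℝ) (m : ℕ) : Prop :=
  ∃ h : ℕ, height m = h ∧ (h : ℝ) ≤ bound x m ∧ (h : ℤ) ≡ b [ZMOD q]

/-- the pairs of primes `(p, p')` for which `n - p - p'` is an odd positive integer -/
def Pairs (n : ℕ) : Finset (ℕ × ℕ) :=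
  (Finset.range n ×ˢ Finset.range n).filter
    (fun z => z.1.Prime ∧ z.2.Prime ∧ z.1 + z.2 < n ∧ Odd (n - z.1 - z.2))

/-- the primes `p` for which `p - k` is an odd positive integer and at most `N` -/
def Shifted (k N : ℕ) : Finset ℕ := (Finset.Ioc k (k + N)).filter (fun p => p.Prime ∧ Odd (p - k))

/-- the primes `p` for which `n - p` is an odd positive integer -/
def Below (n : ℕ) : Finset ℕ := (Finset.range n).filter (fun p => p.Prime ∧ Odd (n - p))

open Pool.Agent.H499R2.ND in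
theorem height_eq {m h : ℕ} (hh : IsHt m h) : height m = h := by
  unfold height
  apply le_antisymm
  · exact sInf_le ⟨h, hh.1, hh.2.1, rfl⟩
  · refine le_sInf ?_
    rintro k ⟨j, hj, hj1, rfl⟩
    have : h ≤ j := by
      by_contra hlt
      exact hh.2.2 j hj (by omega) hj1
    exact_mod_cast this

open Pool.Agent.H499R2.ND in
theorem exists_isHt {m j : ℕ} (hj : 1 ≤ j) (h : C^[j] m = 1) : ∃ h, IsHt m h := by
  classical
  have hex : ∃ k, 1 ≤ k ∧ C^[k] m = 1 := ⟨j, hj, h⟩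
  refine ⟨Nat.find hex, (Nat.find_spec hex).1, (Nat.find_spec hex).2, fun k hk hlt hk1 => ?_⟩
  exact Nat.find_min hex hlt ⟨hk, hk1⟩

open Pool.Agent.H499R2.ND in
theorem height_top {m : ℕ} (hh : ¬ ∃ h, IsHt m h) : height m = ⊤ := by
  unfold height
  have : {k : ℕ∞ | ∃ j : ℕ, 1 ≤ j ∧ C^[j] m = 1 ∧ k = j} = ∅ := by
    rw [Set.eq_empty_iff_forall_notMem]
    rintro k ⟨j, hj, hj1, _⟩
    exact hh (exists_isHt hj hj1)
  rw [this, sInf_empty]

open Pool.Agent.H499R2.ND in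
theorem height_lt_top_iff {m : ℕ} : height m ≠ ⊤ ↔ ∃ h, IsHt m h := by
  constructor
  · intro h
    by_contra hcon
    exact h (height_top hcon)
  · rintro ⟨h, hh⟩
    rw [height_eq hh]
    exact ENat.natCast_ne_top h

open Pool.Agent.H499R2.ND in
theorem height_iff {m h : ℕ} : height m = h ↔ IsHt m h := by
  constructor
  · intro hm
    obtain ⟨h', hh'⟩ := height_lt_top_iff.1 (show height m ≠ ⊤ by rw [hm]; exact ENat.natCast_ne_top h)
    have h1 := height_eq hh'
    rw [hm] at h1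
    have h2 : h = h' := by exact_mod_cast h1
    rw [h2]; exact hh'
  · exact height_eq

open Pool.Agent.H499R2.ND in
theorem odd_density_of {P : ℕ → Prop} {δ : ℝ} (h : Dn (fun m => m % 2 = 1 ∧ P m) (δ / 2)) :
    HasOddDensity P δ := by
  unfold HasOddDensity
  have h1 := h.const_mul 2
  rw [mul_div_cancel₀ δ (by norm_num : (2 : ℝ) ≠ 0)] at h1
  refine h1.congr fun N => ?_
  have e : {m : ℕ | 1 ≤ m ∧ m ≤ N ∧ m % 2 = 1 ∧ P m} = {m : ℕ | m ≤ N ∧ Odd m ∧ P m} := by
    ext m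
    constructor
    · rintro ⟨g1, g2, g3, g4⟩
      exact ⟨g2, Nat.odd_iff.2 g3, g4⟩
    · rintro ⟨g2, g3, g4⟩
      exact ⟨g3.pos, g2, Nat.odd_iff.1 g3, g4⟩
  unfold cnt
  rw [e]
  ring

theorem bound_eq (x : ℝ) (m : ℕ) : bound x m = Pool.Agent.H499R2.HL.bo x (Real.log m) := by
  unfold bound Pool.Agent.H499R2.HL.bo
  have : Real.log (16 / 9) = 2 * Real.log (4 / 3) := by
    rw [show (16 : ℝ) / 9 = (4 / 3) ^ 2 by norm_num, Real.log_pow]; push_cast; ring
  rw [this]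
  have : Real.log (4 / 3) ≠ 0 := (Real.log_pos (by norm_num)).ne'
  congr 2
  field_simp

theorem level_iff (q : ℕ) (b : ℤ) (x : ℝ) (m : ℕ) : Level q b x m ↔ Pool.Agent.TH465.HP.Ev q b x m := by
  unfold Level Pool.Agent.TH465.HP.Ev
  refine exists_congr fun h => ?_
  rw [height_iff, bound_eq]

theorem truncated_isTr : Pool.Agent.TH465.HP.IsTr truncated := by
  constructor
  · intro t m h hh
    unfold truncated
    rw [height_eq hh, if_neg (ENat.natCast_ne_top h), ENat.toNat_natCast]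
  · intro t m hh
    unfold truncated
    rw [if_pos (height_top hh)]

theorem const_eq : 2 / Real.log (16 / 9) = 1 / Pool.Agent.H499R2.HL.nu := by
  unfold Pool.Agent.H499R2.HL.nu
  have : Real.log (16 / 9) = 2 * Real.log (4 / 3) := by
    rw [show (16 : ℝ) / 9 = (4 / 3) ^ 2 by norm_num, Real.log_pow]; push_cast; ring
  rw [this]
  have : Real.log (4 / 3) ≠ 0 := (Real.log_pos (by norm_num)).ne'
  field_simp

open Pool.Agent.TH465.HP in
theorem pairs_eq (n : ℕ) : Pairs n = (FP n).filter (fun z => Odd (n - z.1 - z.2)) := by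
  unfold Pairs FP
  rw [Finset.filter_filter]
  apply Finset.filter_congr
  intro z _
  tauto

open Pool.Agent.TH465.HP in
theorem shifted_eq (k N : ℕ) : Shifted k N = (FS k N).filter (fun p => Odd (p - k)) := by
  unfold Shifted FS
  rw [Finset.filter_filter]

open Pool.Agent.TH465.HP in
theorem below_eq (n : ℕ) : Below n = (FO n).filter (fun p => Odd (n - p)) := by
  unfold Below FO
  rw [Finset.filter_filter]

/-- HEIGHTS WITH PRIMES. Let `δ > 0` be the natural density, among the odd positive integers, of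
those of finite height (`δ = 1` iff all heights are finite).
(A) The law. For `q ≥ 1`, `b`, `x`: (1) for every large odd `n` the number of the pairs of primes with
`n - p - p'` odd, positive, of finite height congruent to `b` modulo `q` and at most `bound x` is
`δ Phi(x) / q * n ^ 2 / (2 log ^ 2 n)`, up to `ε n ^ 2 / log ^ 2 n`; (2) for all even `k ≤ N`, up to
`N / log ^ A N` exceptions, the number of the primes `p` in `(k, k + N]` for which `p - k` has this
property is `(δ Phi(x) / q ± ε) N / log N`; (3) the same holds for the primes `p < n` and `n - p`,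
for all even `n` in `(N, 2 N]` with at most `N / log ^ A N` exceptions.
(B) Truncated averages. For `Λ > 2 / log (16/9)` the sums of `min (h, Λ log)` over the same pairs of
primes and primes are asymptotically
`(δ * 2 / log (16/9) + (1 - δ) Λ) log n * n ^ 2 / (2 log ^ 2 n)`, respectively
`(δ * 2 / log (16/9) + (1 - δ) Λ) N` and `(δ * 2 / log (16/9) + (1 - δ) Λ) n`. -/
theorem result : ∃ δ : ℝ, 0 < δ ∧ δ ≤ 1 ∧ (δ = 1 ↔ ∀ m : ℕ, Odd m → height m ≠ ⊤) ∧
    HasOddDensity (fun m => height m ≠ ⊤) δ ∧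
    (∀ (q : ℕ) (b : ℤ), 1 ≤ q → ∀ x ε : ℝ, 0 < ε →
      (∃ n₀ : ℕ, ∀ n : ℕ, n₀ ≤ n → Odd n →
        |({z : ℕ × ℕ | z ∈ Pairs n ∧ Level q b x (n - z.1 - z.2)}.ncard : ℝ) * Real.log n ^ 2 -
          δ * Phi x / q * (n ^ 2 / 2)| ≤ ε * n ^ 2) ∧
      (∀ A : ℕ, ∃ N₀ : ℕ, ∀ N : ℕ, N₀ ≤ N → ∃ X : Finset ℕ, (X.card : ℝ) * Real.log N ^ A ≤ N ∧
        ∀ k ∈ Finset.Icc 1 N, Even k → k ∉ X →
        |({p : ℕ | p ∈ Shifted k N ∧ Level q b x (p - k)}.ncard : ℝ) * Real.log N -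
          δ * Phi x / q * N| ≤ ε * N) ∧
      (∀ A : ℕ, ∃ N₀ : ℕ, ∀ N : ℕ, N₀ ≤ N → ∃ X : Finset ℕ, (X.card : ℝ) * Real.log N ^ A ≤ N ∧
        ∀ n ∈ Finset.Ioc N (2 * N), Even n → n ∉ X →
        |({p : ℕ | p ∈ Below n ∧ Level q b x (n - p)}.ncard : ℝ) * Real.log n -
          δ * Phi x / q * n| ≤ ε * n)) ∧
    (∀ Λ : ℝ, 2 / Real.log (16 / 9) < Λ → ∀ ε : ℝ, 0 < ε →
      (∃ n₀ : ℕ, ∀ n : ℕ, n₀ ≤ n → Odd n →
        |(∑ z ∈ Pairs n, truncated (Λ * Real.log n) (n - z.1 - z.2)) * Real.log n -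
          (δ * (2 / Real.log (16 / 9)) + (1 - δ) * Λ) * (n ^ 2 / 2)| ≤ ε * n ^ 2) ∧
      (∀ A : ℕ, ∃ N₀ : ℕ, ∀ N : ℕ, N₀ ≤ N → ∃ X : Finset ℕ, (X.card : ℝ) * Real.log N ^ A ≤ N ∧
        ∀ k ∈ Finset.Icc 1 N, Even k → k ∉ X →
        |∑ p ∈ Shifted k N, truncated (Λ * Real.log N) (p - k) -
          (δ * (2 / Real.log (16 / 9)) + (1 - δ) * Λ) * N| ≤ ε * N) ∧
      (∀ A : ℕ, ∃ N₀ : ℕ, ∀ N : ℕ, N₀ ≤ N → ∃ X : Finset ℕ, (X.card : ℝ) * Real.log N ^ A ≤ N ∧
        ∀ n ∈ Finset.Ioc N (2 * N), Even n → n ∉ X →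
        |∑ p ∈ Below n, truncated (Λ * Real.log n) (n - p) -
          (δ * (2 / Real.log (16 / 9)) + (1 - δ) * Λ) * n| ≤ ε * n)) := by
  obtain ⟨δ, hδ, h1, h2⟩ := Pool.Agent.TH465.HP.den
  refine ⟨δ, hδ.pos, hδ.le_one, ?_, odd_density_of ?_, fun q b hq x ε hε => ⟨?_, fun A => ?_, fun A => ?_⟩,
    fun Λ hΛ ε hε => ⟨?_, fun A => ?_, fun A => ?_⟩⟩
  · rw [h1]
    exact forall_congr' fun m => forall_congr' fun _ => height_lt_top_iff.symm
  · exact Pool.Agent.H499R2.LT.Dn_iff (fun n _ => and_congr_right fun _ => height_lt_top_iff.symm) h2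
  · obtain ⟨n₀, h⟩ := eventually_atTop.1 (Pool.Agent.TH465.HP.law_tern hδ hq b x ε hε)
    refine ⟨n₀, fun n hn hodd => ?_⟩
    have h3 := h n hn hodd
    have e1 : {z : ℕ × ℕ | z ∈ Pairs n ∧ Level q b x (n - z.1 - z.2)} =
        {z : ℕ × ℕ | z ∈ Pool.Agent.TH465.HP.FP n ∧ Odd (n - z.1 - z.2) ∧
          Pool.Agent.TH465.HP.Ev q b x (n - z.1 - z.2)} := by
      ext z
      simp only [Set.mem_ofPred_eq]
      rw [pairs_eq, Finset.mem_filter, level_iff, and_assoc]
    have e2 : δ * Phi x / q = δ / q * Pool.Agent.H499R2.ND.Phi x := by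
      unfold Phi
      rw [← Pool.Agent.H499R2.ND.phi_cdf]; ring
    rw [e1, e2]
    exact h3
  · obtain ⟨n₀, h⟩ := eventually_atTop.1 (Pool.Agent.TH465.HP.law_diff hδ hq b x A ε hε)
    refine ⟨n₀, fun N hN => ?_⟩
    obtain ⟨X, hX, h3⟩ := h N hN
    refine ⟨X, hX, fun k hk hke hkX => ?_⟩
    have h4 := h3 k hk hke hkX
    have e1 : {p : ℕ | p ∈ Shifted k N ∧ Level q b x (p - k)} =
        {p : ℕ | p ∈ Pool.Agent.TH465.HP.FS k N ∧ Odd (p - k) ∧
          Pool.Agent.TH465.HP.Ev q b x (p - k)} := by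
      ext z
      simp only [Set.mem_ofPred_eq]
      rw [shifted_eq, Finset.mem_filter, level_iff, and_assoc]
    have e2 : δ * Phi x / q = δ / q * Pool.Agent.H499R2.ND.Phi x := by
      unfold Phi
      rw [← Pool.Agent.H499R2.ND.phi_cdf]; ring
    rw [e1, e2]
    exact h4
  · obtain ⟨n₀, h⟩ := eventually_atTop.1 (Pool.Agent.TH465.HP.law_sum hδ hq b x A ε hε)
    refine ⟨n₀, fun N hN => ?_⟩
    obtain ⟨X, hX, h3⟩ := h N hN
    refine ⟨X, hX, fun n hn hne hnX => ?_⟩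
    have h4 := h3 n hn hne hnX
    have e1 : {p : ℕ | p ∈ Below n ∧ Level q b x (n - p)} =
        {p : ℕ | p ∈ Pool.Agent.TH465.HP.FO n ∧ Odd (n - p) ∧
          Pool.Agent.TH465.HP.Ev q b x (n - p)} := by
      ext z
      simp only [Set.mem_ofPred_eq]
      rw [below_eq, Finset.mem_filter, level_iff, and_assoc]
    have e2 : δ * Phi x / q = δ / q * Pool.Agent.H499R2.ND.Phi x := by
      unfold Phi
      rw [← Pool.Agent.H499R2.ND.phi_cdf]; ring
    rw [e1, e2]
    exact h4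
  · rw [const_eq] at hΛ ⊢
    obtain ⟨n₀, h⟩ := eventually_atTop.1 (Pool.Agent.TH465.HP.avg_tern hδ truncated_isTr hΛ ε hε)
    refine ⟨n₀, fun n hn hodd => ?_⟩
    rw [pairs_eq]
    exact h n hn hodd
  · rw [const_eq] at hΛ ⊢
    obtain ⟨n₀, h⟩ := eventually_atTop.1 (Pool.Agent.TH465.HP.avg_diff hδ truncated_isTr hΛ A ε hε)
    refine ⟨n₀, fun N hN => ?_⟩
    obtain ⟨X, hX, h3⟩ := h N hN
    refine ⟨X, hX, fun k hk hke hkX => ?_⟩
    rw [shifted_eq]
    exact h3 k hk hke hkX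
  · rw [const_eq] at hΛ ⊢
    obtain ⟨n₀, h⟩ := eventually_atTop.1 (Pool.Agent.TH465.HP.avg_sum hδ truncated_isTr hΛ A ε hε)
    refine ⟨n₀, fun N hN => ?_⟩
    obtain ⟨X, hX, h3⟩ := h N hN
    refine ⟨X, hX, fun n hn hne hnX => ?_⟩
    rw [below_eq]
    exact h3 n hn hne hnX

end Pool.Agent.Results.MP_2b866c_nt.HeightsWithPrimes
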