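import Mathlib
import Pool.Agent.TH237.AV.Bridge

set_option autoImplicit false

/-!
The average number of steps of the map on the odd integers until the first value `≤ y`, with a
bounded error.

Author: helper237.
-/

namespace Pool.Agent.Results.MP_2b866c_nt.PassageBoundedError

open Finset

/-- `C(m) = (3m+1)/2^e(m)`, `2^e(m)` the largest power of `2` dividing `3m+1` -/
def C (m : ℕ) : ℕ := (3 * m + 1) / 2 ^ padicValNat 2 (3 * m + 1)

/-- `min (h, L)`, where `h` is the least `k ≥ 0` with `C^k(m) ≤ y`, and `h = ∞` if there is none -/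
noncomputable def truncPassage (y : ℝ) (m L : ℕ) : ℕ := sInf {k : ℕ | ((C^[k] m : ℕ) : ℝ) ≤ y ∨ L ≤ k}

/-- the odd integers `1 ≤ m ≤ x` -/
noncomputable def odds (x : ℝ) : Finset ℕ := (Icc 1 ⌊x⌋₊).filter fun m => m % 2 = 1

theorem passage_eq : truncPassage = Pool.Agent.TH237.AV.Br.truncPassage := rfl

theorem odds_eq : odds = Pool.Agent.TH237.AV.Br.odds := rfl

/-- Write `c = 2 / log (16/9)`. For every `Λ > c` and every `K` there is `B` such that for all
`1 ≤ y ≤ x` and all integers `L` with `Λ log x ≤ L ≤ (log y)^K`: the average over the odd `m ≤ x` of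
`min (h_y(m), L)`, `h_y(m)` the number of steps from `m` to the first value `≤ y`, differs from
`c log (x/y)` by at most `B`. The lower bound `c log (x/y) - B` holds for all `L ≥ Λ log x`. -/
theorem result (Λ : ℝ) (K : ℕ) (hΛ : 2 / Real.log (16 / 9) < Λ) : ∃ B : ℝ, ∀ (x y : ℝ) (L : ℕ),
    1 ≤ y → y ≤ x → Λ * Real.log x ≤ L →
      2 / Real.log (16 / 9) * Real.log (x / y) - B ≤ 2 / x * ∑ m ∈ odds x, (truncPassage y m L : ℝ) ∧
      ((L : ℝ) ≤ (Real.log y) ^ K →
        |2 / x * ∑ m ∈ odds x, (truncPassage y m L : ℝ) - 2 / Real.log (16 / 9) * Real.log (x / y)| ≤ B) := by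
  rw [passage_eq, odds_eq]
  obtain ⟨B, hB, h⟩ := Pool.Agent.TH237.AV.Br.lower hΛ
  obtain ⟨B', hB', h'⟩ := Pool.Agent.TH237.AV.Br.upper K
  refine ⟨max B B', fun x y L hy hyx hL => ?_⟩
  have hx1 : 1 ≤ x := hy.trans hyx
  have e : Real.log (x / y) = Real.log x - Real.log y := Real.log_div (by linarith) (by linarith)
  rw [e]
  have h1 := h x y L hy hx1 hL
  have h4 := le_max_left B B'
  have h5 := le_max_right B B'
  refine ⟨by linarith, fun hLK => ?_⟩
  have h2 := h' x y L hy hyx
    ((mul_le_mul_of_nonneg_right hΛ.le (Real.log_nonneg hx1)).trans hL) hLK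
  rw [abs_le]
  constructor <;> linarith

end Pool.Agent.Results.MP_2b866c_nt.PassageBoundedError
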